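import Mathlib

namespace Pool.Agent.Results.MP_73edb1_nt.Permanent

open Finset Equiv

theorem prod_lin {ι : Type*} [DecidableEq ι] (s : Finset ι) (a e : ι → ℤ) (p : ℤ) :
    ∏ i ∈ s, (a i + p * e i) ≡
      ∏ i ∈ s, a i + p * ∑ i ∈ s, e i * ∏ j ∈ s.erase i, a j [ZMOD p ^ 2] := by
  induction s using Finset.induction_on with
  | empty => simp
  | insert k s hk ih =>
    rw [prod_insert hk, prod_insert hk, sum_insert hk, erase_insert hk]
    have : ∑ i ∈ s, e i * ∏ j ∈ (insert k s).erase i, a j =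
        a k * ∑ i ∈ s, e i * ∏ j ∈ s.erase i, a j := by
      rw [mul_sum]
      refine sum_congr rfl fun i hi => ?_
      rw [erase_insert_of_ne (by rintro rfl; exact hk hi),
        prod_insert (fun h => hk (mem_of_mem_erase h))]
      ring
    rw [this]
    refine (ih.mul_left (a k + p * e k)).trans ?_
    rw [Int.modEq_iff_dvd]
    exact ⟨-(e k * ∑ i ∈ s, e i * ∏ j ∈ s.erase i, a j), by ring⟩

variable {p : ℕ} [hp : Fact p.Prime]

def G (σ : Perm (ZMod p)) : ℤ := ∏ i ∈ σ.support, (((σ i).val : ℤ) - i.val)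
def g (σ : Perm (ZMod p)) : ZMod p := ∏ i ∈ σ.support, (σ i - i)
def cm (σ : Perm (ZMod p)) : ZMod p := ∑ i ∈ σ.support, i
def cj (τ σ : Perm (ZMod p)) : Perm (ZMod p) := τ * σ * τ⁻¹

theorem G_cast (σ : Perm (ZMod p)) : (G σ : ZMod p) = g σ := by simp [G, g]

theorem card_cj (τ σ : Perm (ZMod p)) : (cj τ σ).support.card = σ.support.card :=
  Perm.card_support_conj

theorem prod_cj {M : Type*} [CommMonoid M] (τ σ : Perm (ZMod p)) (f : ZMod p → ZMod p → M) :
    ∏ i ∈ (cj τ σ).support, f (cj τ σ i) i = ∏ i ∈ σ.support, f (τ (σ i)) (τ i) := by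
  rw [cj, Perm.support_conj, prod_map]; simp

theorem cm_cj (τ σ : Perm (ZMod p)) : cm (cj τ σ) = ∑ i ∈ σ.support, τ i := by
  rw [cm, cj, Perm.support_conj, sum_map]; simp

theorem cm_add (t : ZMod p) (σ : Perm (ZMod p)) :
    cm (cj (Equiv.addRight t) σ) = cm σ + σ.support.card * t := by
  rw [cm_cj]; simp [cm, sum_add_distrib]

/-- the carry -/
def w (i t : ZMod p) : ℤ := if i.val + t.val < p then 0 else 1

theorem val_add' (i t : ZMod p) : ((i + t).val : ℤ) = i.val + t.val - p * w i t := by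
  unfold w
  split_ifs with h
  · rw [ZMod.val_add_of_lt h]; simp
  · have h := not_lt.mp h
    rw [ZMod.val_add_of_le h]; push_cast [h]; ring

theorem sum_w (i : ZMod p) : ∑ t, w i t = i.val := by
  have h1 : ∑ t : ZMod p, ((i + t).val : ℤ) = ∑ t : ZMod p, (t.val : ℤ) :=
    Fintype.sum_equiv (Equiv.addLeft i) _ _ fun t => rfl
  simp only [val_add', sum_sub_distrib, sum_add_distrib, sum_const, card_univ, ZMod.card,
    ← mul_sum, nsmul_eq_mul] at h1
  have hp0 : (p : ℤ) ≠ 0 := by exact_mod_cast hp.out.ne_zero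
  apply mul_left_cancel₀ hp0; linarith

theorem orbit_sum (σ : Perm (ZMod p)) :
    ∑ t : ZMod p, G (cj (Equiv.addRight t) σ) ≡ p * ((1 - σ.support.card) * G σ) [ZMOD p ^ 2] := by
  have h1 : ∀ t : ZMod p, G (cj (Equiv.addRight t) σ) =
      ∏ i ∈ σ.support, ((((σ i).val : ℤ) - i.val) + p * (w i t - w (σ i) t)) := by
    intro t
    rw [G, prod_cj _ _ fun a b => ((a.val : ℤ) - b.val)]
    refine prod_congr rfl fun i _ => ?_
    simp only [Equiv.coe_addRight, val_add']; ring
  simp only [h1]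
  refine (Int.ModEq.sum fun t _ => prod_lin _ _ _ _).trans ?_
  rw [sum_add_distrib, ← mul_sum, sum_comm]
  simp only [← sum_mul, sum_sub_distrib, sum_w, sum_const, card_univ, ZMod.card, nsmul_eq_mul]
  have : ∑ i ∈ σ.support, ((i.val : ℤ) - (σ i).val) *
      ∏ j ∈ σ.support.erase i, (((σ j).val : ℤ) - j.val) = -(σ.support.card * G σ) := by
    rw [← nsmul_eq_mul, ← sum_const, ← sum_neg_distrib]
    refine sum_congr rfl fun i hi => ?_
    rw [G, ← mul_prod_erase _ _ hi]; ring
  rw [this, G]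
  exact Int.modEq_iff_dvd.mpr ⟨0, by ring⟩

def Cs (p : ℕ) [Fact p.Prime] : Finset (Perm (ZMod p)) :=
  univ.filter fun σ => 0 < σ.support.card ∧ σ.support.card < p
def Zs (p : ℕ) [Fact p.Prime] : Finset (Perm (ZMod p)) := (Cs p).filter fun σ => cm σ = 0

theorem cj_cj (s t : ZMod p) (σ : Perm (ZMod p)) :
    cj (Equiv.addRight s) (cj (Equiv.addRight t) σ) = cj (Equiv.addRight (t + s)) σ := by
  ext i; simp [cj, add_assoc, add_comm s t, add_comm (-s)]

theorem cj_zero (σ : Perm (ZMod p)) : cj (Equiv.addRight 0) σ = σ := by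
  ext i; simp [cj]

theorem card_ne {σ : Perm (ZMod p)} (h : σ ∈ Cs p) : (σ.support.card : ZMod p) ≠ 0 := by
  simp only [Cs, mem_filter, mem_univ, true_and] at h
  rw [Ne, ZMod.natCast_eq_zero_iff]
  exact fun hd => absurd (Nat.le_of_dvd h.1 hd) (by omega)

theorem sum_Cs : ∑ σ ∈ Cs p, G σ = ∑ σ ∈ Zs p, ∑ t : ZMod p, G (cj (Equiv.addRight t) σ) := by
  rw [← sum_product']
  symm
  refine sum_nbij' (fun x => cj (Equiv.addRight x.2) x.1)
    (fun σ => (cj (Equiv.addRight (-(cm σ / σ.support.card))) σ, cm σ / σ.support.card))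
    ?_ ?_ ?_ ?_ ?_
  · rintro ⟨σ, t⟩ h
    simp only [mem_product, Zs, Cs, mem_filter, mem_univ, true_and, card_cj] at h ⊢
    exact h.1.1
  · intro σ h
    have := card_ne h
    simp only [mem_product, Zs, Cs, mem_filter, mem_univ, true_and, card_cj, and_true] at h ⊢
    refine ⟨h, ?_⟩
    rw [cm_add]; field_simp; ring
  · rintro ⟨σ, t⟩ h
    simp only [mem_product, Zs, mem_filter, mem_univ, and_true] at h
    have := card_ne h.1
    have e : cm (cj (Equiv.addRight t) σ) / (cj (Equiv.addRight t) σ).support.card = t := by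
      rw [cm_add, card_cj, h.2]; field_simp; ring
    simp only [e, cj_cj, add_neg_cancel, cj_zero]
  · intro σ h
    simp only [cj_cj, neg_add_cancel, cj_zero]
  · intro x _; rfl

def sc (c : (ZMod p)ˣ) : Perm (ZMod p) :=
  ⟨fun i => c * i, fun i => (c⁻¹ : (ZMod p)ˣ) * i, fun i => Units.inv_mul_cancel_left c i,
    fun i => Units.mul_inv_cancel_left c i⟩

theorem sc_apply (c : (ZMod p)ˣ) (i : ZMod p) : sc c i = c * i := rfl
theorem sc_mul (c : (ZMod p)ˣ) : sc c⁻¹ * sc c = 1 := by
  ext i; exact Units.inv_mul_cancel_left c i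
theorem sc_mul' (c : (ZMod p)ˣ) : sc c * sc c⁻¹ = 1 := by
  ext i; exact Units.mul_inv_cancel_left c i
theorem cj_inv {τ τ' : Perm (ZMod p)} (h : τ' * τ = 1) (σ : Perm (ZMod p)) :
    cj τ' (cj τ σ) = σ := by
  have : τ' = τ⁻¹ := eq_inv_of_mul_eq_one_left h
  rw [this, cj, cj]; group

theorem sum_Zs : ∑ σ ∈ Zs p, (1 - (σ.support.card : ZMod p)) * g σ =
    ∑ σ ∈ (Zs p).filter (fun σ => σ.support.card = p - 1), 2 * g σ := by
  have h1 : ∀ c : (ZMod p)ˣ, ∑ σ ∈ Zs p, (1 - (σ.support.card : ZMod p)) * g σ =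
      ∑ σ ∈ Zs p, (c : ZMod p) ^ σ.support.card * ((1 - (σ.support.card : ZMod p)) * g σ) := by
    intro c
    have hm : ∀ (c : (ZMod p)ˣ) σ, σ ∈ Zs p → cj (sc c) σ ∈ Zs p := by
      intro c σ h
      simp only [Zs, Cs, mem_filter, mem_univ, true_and, card_cj] at h ⊢
      refine ⟨h.1, ?_⟩
      rw [cm_cj]
      have := h.2
      simp only [sc_apply]
      rw [cm] at this; rw [← mul_sum, this, mul_zero]
    symm
    refine sum_nbij' (cj (sc c)) (cj (sc c⁻¹)) (hm c) (hm c⁻¹) ?_ ?_ ?_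
    · intro σ _; exact cj_inv (sc_mul c) σ
    · intro σ _; exact cj_inv (sc_mul' c) σ
    · intro σ _
      rw [card_cj, g, g, prod_cj _ _ fun a b => a - b]
      simp only [sc_apply, ← mul_sub, prod_mul_distrib, prod_const]; ring
  have h2 := sum_congr rfl fun c (_ : c ∈ (univ : Finset (ZMod p)ˣ)) => h1 c
  have hp2 := hp.out.two_le
  have hc : ((p - 1 : ℕ) : ZMod p) = -1 := by rw [Nat.cast_sub (by omega)]; simp
  rw [sum_const, sum_comm, card_univ, ZMod.card_units, nsmul_eq_mul, hc] at h2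
  simp only [← sum_mul, FiniteField.sum_pow_units, ZMod.card] at h2
  rw [sum_filter]
  apply neg_injective
  rw [← neg_one_mul, h2, ← sum_neg_distrib]
  refine sum_congr rfl fun σ hσ => ?_
  simp only [Zs, Cs, mem_filter, mem_univ, true_and] at hσ
  by_cases h : σ.support.card = p - 1
  · rw [if_pos h, if_pos (h ▸ dvd_rfl), h, hc]; ring
  · rw [if_neg h, if_neg fun hd => h (le_antisymm (by omega) (Nat.le_of_dvd hσ.1.1 hd))]; ring

theorem sum_all (h2 : p ≠ 2) : ∑ x : ZMod p, x = 0 := by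
  have := hp.out.two_le
  simpa using FiniteField.sum_pow_lt_card_sub_one (K := ZMod p) 1 (by rw [ZMod.card]; omega)

theorem mem_top (h2 : p ≠ 2) (σ : Perm (ZMod p)) :
    σ ∈ (Zs p).filter (fun σ => σ.support.card = p - 1) ↔ σ.support = univ.erase 0 := by
  have hp2 := hp.out.two_le
  simp only [Zs, Cs, mem_filter, mem_univ, true_and]
  constructor
  · rintro ⟨⟨-, hc⟩, hm⟩
    have : (σ.supportᶜ).card = 1 := by rw [card_compl, ZMod.card, hm]; omega
    obtain ⟨a, ha⟩ := card_eq_one.mp this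
    have h3 := sum_add_sum_compl σ.support fun x : ZMod p => x
    rw [ha, sum_singleton, sum_all h2] at h3
    have : a = 0 := by rw [cm] at hc; rw [hc] at h3; simpa using h3
    rw [← compl_compl σ.support, ha, this, compl_singleton]
  · intro h
    have hc : σ.support.card = p - 1 := by
      rw [h, card_erase_of_mem (mem_univ _), card_univ, ZMod.card]
    refine ⟨⟨by omega, ?_⟩, hc⟩
    rw [cm, h, sum_erase (f := fun i : ZMod p => i) _ rfl, sum_all h2]

def St (p : ℕ) [Fact p.Prime] : Finset (Perm (ZMod p)) := univ.filter fun σ => σ 0 = 0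

theorem card_St : ((St p).card : ZMod p) = -1 := by
  have e := Fintype.card_congr (Perm.subtypeEquivSubtypePerm fun x : ZMod p => x ≠ 0)
  rw [Fintype.card_perm, Fintype.card_subtype, Fintype.card_subtype, filter_ne',
    card_erase_of_mem (mem_univ _), card_univ, ZMod.card] at e
  have : St p = univ.filter fun f : Perm (ZMod p) => ∀ a, ¬ a ≠ 0 → f a = a := by
    ext f; simp [St]
  rw [this, ← e, ZMod.wilsons_lemma]

theorem prod_nz : ∏ i ∈ (univ : Finset (ZMod p)).erase 0, i = -1 := by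
  have h := congrArg (Units.coeHom (ZMod p)) (FiniteField.prod_univ_units_id_eq_neg_one (K := ZMod p))
  rw [map_prod] at h
  simp only [Units.coeHom_apply, Units.val_neg, Units.val_one] at h
  rw [← h]
  symm
  refine prod_bij (fun x _ => (x : ZMod p)) (fun x _ => by simp) (fun a _ b _ h => Units.ext h)
    (fun b hb => ⟨Units.mk0 b (by simpa using hb), mem_univ _, rfl⟩) fun _ _ => rfl

theorem avg (h2 : p ≠ 2) (σ : Perm (ZMod p)) (h : σ 0 = 0) :
    ∑ c : (ZMod p)ˣ, ∏ i ∈ univ.erase 0, ((c : ZMod p) * σ i + -i) = 2 := by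
  have hp2 := hp.out.two_le
  have hs : ((univ : Finset (ZMod p)).erase 0).card = p - 1 := by
    rw [card_erase_of_mem (mem_univ _), card_univ, ZMod.card]
  simp only [prod_add]
  rw [sum_comm]
  simp only [prod_mul_distrib, prod_const, mul_assoc, ← sum_mul, FiniteField.sum_pow_units,
    ZMod.card]
  rw [sum_eq_add (∅ : Finset (ZMod p)) (univ.erase 0)]
  · have e1 : ∏ i ∈ (univ : Finset (ZMod p)).erase 0, σ i = -1 := by
      rw [← prod_nz]
      refine prod_equiv σ (fun i => ?_) fun _ _ => rfl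
      simp only [mem_erase, mem_univ, and_true]
      rw [← h, Ne, Ne, h, ← σ.injective.eq_iff, h]
    have e2 : ∏ i ∈ (univ : Finset (ZMod p)).erase 0, -i = -1 := by
      rw [prod_neg, prod_nz, hs, (hp.out.even_sub_one h2).neg_one_pow]; ring
    simp only [card_empty, dvd_zero, if_true, prod_empty, sdiff_empty, hs, dvd_rfl, sdiff_self,
      e1, e2, bot_eq_empty]
    ring
  · intro h; rw [← h] at hs; simp at hs; omega
  · intro T hT ⟨h1, h3⟩
    rw [if_neg, zero_mul]
    intro hd
    have hT := mem_powerset.mp hT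
    have := Nat.le_of_dvd (card_pos.mpr (nonempty_iff_ne_empty.mpr h1)) hd
    exact h3 (eq_of_subset_of_card_le hT (by omega))
  · simp
  · simp

theorem sum_St (h2 : p ≠ 2) : ∑ σ ∈ St p, ∏ i ∈ univ.erase 0, (σ i - i) = 2 := by
  have h1 : ∀ c : (ZMod p)ˣ, ∑ σ ∈ St p, ∏ i ∈ univ.erase 0, (σ i - i) =
      ∑ σ ∈ St p, ∏ i ∈ univ.erase 0, ((c : ZMod p) * σ i + -i) := by
    intro c
    symm
    refine sum_nbij' (fun σ => sc c * σ) (fun σ => sc c⁻¹ * σ) ?_ ?_ ?_ ?_ ?_
    · intro σ h; simp [St, sc_apply] at h ⊢; exact h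
    · intro σ h; simp only [St, sc_apply, mem_filter, mem_univ, true_and, Perm.mul_apply] at h ⊢
      rw [h, mul_zero]
    · intro σ _; simp only [← mul_assoc, sc_mul, one_mul]
    · intro σ _; simp only [← mul_assoc, sc_mul', one_mul]
    · intro σ _; simp [sc_apply, sub_eq_add_neg]
  have h3 := sum_congr rfl fun c (_ : c ∈ (univ : Finset (ZMod p)ˣ)) => h1 c
  have hp2 := hp.out.two_le
  have hc : ((p - 1 : ℕ) : ZMod p) = -1 := by rw [Nat.cast_sub (by omega)]; simp
  rw [sum_const, sum_comm, card_univ, ZMod.card_units, nsmul_eq_mul, hc,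
    sum_congr rfl fun σ (hσ : σ ∈ St p) => avg h2 σ (mem_filter.mp hσ).2, sum_const, nsmul_eq_mul,
    card_St] at h3
  linear_combination -h3

theorem sum_top (h2 : p ≠ 2) :
    ∑ σ ∈ (Zs p).filter (fun σ => σ.support.card = p - 1), g σ = 2 := by
  rw [← sum_St h2]
  refine sum_subset_zero_on_sdiff ?_ ?_ ?_
  · intro σ h
    rw [mem_top h2] at h
    simp only [St, mem_filter, mem_univ, true_and]
    rw [← Perm.notMem_support, h]; simp
  · intro σ h
    rw [mem_sdiff, mem_top h2] at h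
    simp only [St, mem_filter, mem_univ, true_and] at h
    by_contra hne
    refine h.2 (Subset.antisymm (fun i hi => ?_) fun i hi => ?_)
    · simp only [mem_erase, mem_univ, and_true]
      rintro rfl; exact Perm.mem_support.mp hi h.1
    · rw [Perm.mem_support]
      exact fun e => hne (prod_eq_zero hi (sub_eq_zero.mpr e))
  · intro σ h
    rw [mem_top h2] at h
    rw [g, h]

theorem sum_full (h2 : p ≠ 2) :
    ∑ σ ∈ univ.filter (fun σ : Perm (ZMod p) => σ.support.card = p), G σ = 0 := by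
  have : ∑ σ ∈ univ.filter (fun σ : Perm (ZMod p) => σ.support.card = p), G σ =
      ∑ σ ∈ univ.filter (fun σ : Perm (ZMod p) => σ.support.card = p), -G σ := by
    refine sum_nbij' (fun σ => σ⁻¹) (fun σ => σ⁻¹) (by simp) (by simp) (by simp) (by simp) ?_
    intro σ h
    have h := (mem_filter.mp h).2
    have e : G σ⁻¹ = ∏ i ∈ σ.support, -(((σ i).val : ℤ) - i.val) := by
      rw [G, Perm.support_inv]
      symm
      refine prod_equiv σ (fun i => Perm.apply_mem_support.symm) fun i _ => by simp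
    rw [e, prod_neg, h, (hp.out.odd_of_ne_two h2).neg_one_pow, G]; ring
  rw [sum_neg_distrib] at this
  linarith

theorem main (h2 : p ≠ 2) : ∑ σ : Perm (ZMod p), G σ ≡ 4 * p + 1 [ZMOD p ^ 2] := by
  have hp2 := hp.out.two_le
  have e : ∑ σ : Perm (ZMod p), G σ = ∑ σ ∈ Cs p, G σ + 1 := by
    rw [← sum_filter_add_sum_filter_not univ
      (fun σ : Perm (ZMod p) => 0 < σ.support.card ∧ σ.support.card < p), Cs]
    congr 1
    have : univ.filter (fun σ : Perm (ZMod p) => ¬(0 < σ.support.card ∧ σ.support.card < p)) =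
        insert 1 (univ.filter (fun σ : Perm (ZMod p) => σ.support.card = p)) := by
      ext σ
      have := σ.support.card_le_univ
      rw [ZMod.card] at this
      simp only [mem_filter, mem_univ, true_and, mem_insert, ← Perm.card_support_eq_zero]
      omega
    rw [this, sum_insert (by simp; omega), sum_full h2]
    simp [G]
  rw [e, sum_Cs]
  refine Int.ModEq.add_right _ ((Int.ModEq.sum fun σ _ => orbit_sum σ).trans ?_)
  rw [← mul_sum, sq, mul_comm 4]
  refine Int.ModEq.mul_left' ?_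
  rw [← ZMod.intCast_eq_intCast_iff]
  push_cast
  simp only [G_cast]
  rw [sum_Zs, ← mul_sum, sum_top h2]; norm_num

theorem result (p : ℕ) (hp : p.Prime) (h2 : p ≠ 2) :
    (Matrix.of fun i l : Fin p =>
      ((i : ℕ) + 1 : ℤ) - ((l : ℕ) + 1) + if i = l then 1 else 0).permanent ≡
        4 * p + 1 [ZMOD p ^ 2] := by
  obtain ⟨q, rfl⟩ : ∃ q, p = q + 1 := ⟨p - 1, by have := hp.two_le; omega⟩
  haveI := Fact.mk hp
  have h := main h2
  have e : (Matrix.of fun i l : Fin (q + 1) =>
      ((i : ℕ) + 1 : ℤ) - ((l : ℕ) + 1) + if i = l then 1 else 0).permanent =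
      ∑ σ : Perm (ZMod (q + 1)), G σ := by
    rw [Matrix.permanent]
    refine sum_congr rfl fun σ _ => ?_
    rw [G]
    symm
    refine prod_subset_one_on_sdiff (subset_univ _) (fun i hi => ?_) fun i hi => ?_
    · have : σ i = i := Perm.notMem_support.mp (mem_sdiff.mp hi).2
      simp [this]
    · have : σ i ≠ i := Perm.mem_support.mp hi
      rw [Matrix.of_apply, if_neg this]
      rw [add_zero, add_sub_add_right_eq_sub]
      rfl
  rw [e]; exact h

end Pool.Agent.Results.MP_73edb1_nt.Permanent
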